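import Pool.Agent.Q229.PT.Runs

/-!
# Run data, amalgamation and pumping
-/

set_option autoImplicit false

namespace Q229.PT

variable {m : ℕ}

/-- data of one segment of a caterpillar -/
structure Seg (A : PTAR Sym Sym.rk m) (ι κ : Type) where
  /-- state at the start -/
  q : A.Q
  /-- state at the binary symbol -/
  p : A.Q
  /-- first state of the side branch -/
  r : A.Q
  /-- last state of the side branch -/
  r' : A.Q
  /-- increment to the side branch -/
  e₁ : Inc A
  /-- increment to the next segment -/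
  e₂ : Inc A
  /-- index of the linear set -/
  i : ι
  /-- word of the segment -/
  wa : List (Ltr A)
  /-- word of the side branch -/
  wb : List (Ltr A)
  /-- coefficients -/
  c : κ → ℕ

variable {A : PTAR Sym Sym.rk m} {ι κ : Type}

/-- comparability of segments -/
def Rel (x y : Seg A ι κ) : Prop :=
  x.q = y.q ∧ x.p = y.p ∧ x.r = y.r ∧ x.r' = y.r' ∧ x.e₁ = y.e₁ ∧ x.e₂ = y.e₂ ∧ x.i = y.i ∧
    x.wa.Sublist y.wa ∧ x.wb.Sublist y.wb ∧ x.c ≤ y.c

theorem Rel.refl (x : Seg A ι κ) : Rel x x :=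
  ⟨rfl, rfl, rfl, rfl, rfl, rfl, rfl, List.Sublist.refl _, List.Sublist.refl _, le_rfl⟩

theorem Rel.trans {x y z : Seg A ι κ} (h : Rel x y) (h' : Rel y z) : Rel x z := by
  obtain ⟨a1, a2, a3, a4, a5, a6, a7, a8, a9, a10⟩ := h
  obtain ⟨b1, b2, b3, b4, b5, b6, b7, b8, b9, b10⟩ := h'
  exact ⟨a1.trans b1, a2.trans b2, a3.trans b3, a4.trans b4, a5.trans b5, a6.trans b6,
    a7.trans b7, a8.trans b8, a9.trans b9, a10.trans b10⟩

instance : IsPreorder (Seg A ι κ) Rel where
  refl := Rel.refl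
  trans _ _ _ := Rel.trans

theorem wqo_rel [Finite ι] [Finite κ] : WellQuasiOrdered (Rel : Seg A ι κ → Seg A ι κ → Prop) := by
  have := A.finite_Q
  have hF : WellQuasiOrdered (fun a b : A.Q × A.Q × A.Q × A.Q × Inc A × Inc A × ι => a = b) :=
    Finite.wellQuasiOrdered _
  have hL := wqo_sublist (Ltr A)
  have hc : WellQuasiOrdered (fun a b : κ → ℕ => a ≤ b) := wellQuasiOrdered_le
  have i1 : IsPreorder (List (Ltr A)) (fun a b : List (Ltr A) => a.Sublist b) :=
    { refl := List.Sublist.refl, trans := fun _ _ _ => List.Sublist.trans }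
  have i2 : IsPreorder (A.Q × A.Q × A.Q × A.Q × Inc A × Inc A × ι)
      (fun a b : A.Q × A.Q × A.Q × A.Q × Inc A × Inc A × ι => a = b) :=
    { refl := fun _ => rfl, trans := fun _ _ _ => Eq.trans }
  have h3 := hF.prod (hL.prod (hL.prod hc))
  intro f
  obtain ⟨a, b, hab, h⟩ := h3 (fun n => (((f n).q, (f n).p, (f n).r, (f n).r', (f n).e₁, (f n).e₂,
    (f n).i), (f n).wa, (f n).wb, (f n).c))
  refine ⟨a, b, hab, ?_⟩
  simp only [Prod.mk.injEq] at h
  obtain ⟨⟨h1, h2, h3, h4, h5, h6, h7⟩, h8, h9, h10⟩ := h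
  exact ⟨h1, h2, h3, h4, h5, h6, h7, h8, h9, h10⟩

/-- comparability of the segments up to `k` -/
def RelK (k : ℕ) (x y : ℕ → Seg A ι κ) : Prop := ∀ l ≤ k, Rel (x l) (y l)

theorem wqo_relK [Finite ι] [Finite κ] (k : ℕ) :
    WellQuasiOrdered (RelK k : (ℕ → Seg A ι κ) → (ℕ → Seg A ι κ) → Prop) := by
  have h := WellQuasiOrdered.pi (ι := Fin (k + 1)) (α := fun _ => Seg A ι κ)
    (r := fun _ => Rel) (fun _ => wqo_rel)
  intro f
  obtain ⟨a, b, hab, h⟩ := h (fun n i => f n i)
  exact ⟨a, b, hab, fun l hl => h ⟨l, by omega⟩⟩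

variable [Fintype κ] (a : ι → Fin m → ℕ) (g : ι → κ → Fin m → ℕ)

/-- the vector given by the coefficients -/
def dec (x : Seg A ι κ) : Fin m → ℕ := a x.i + ∑ j, x.c j • g x.i j

omit [Fintype κ] in
/-- the vector at the start of a segment -/
def S (x : ℕ → Seg A ι κ) (s : Fin m → ℕ) (l : ℕ) : Fin m → ℕ :=
  s + ∑ j ∈ Finset.range l, (wt (x j).wa + (x j).e₂.1)

omit [Fintype κ] in
theorem S_zero (x : ℕ → Seg A ι κ) (s : Fin m → ℕ) : S x s 0 = s := by simp [S]

omit [Fintype κ] in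
theorem S_succ (x : ℕ → Seg A ι κ) (s : Fin m → ℕ) (l : ℕ) :
    S x s (l + 1) = S x s l + wt (x l).wa + (x l).e₂.1 := by
  simp only [S, Finset.sum_range_succ]; ring

omit [Fintype κ] in
theorem S_shift (x : ℕ → Seg A ι κ) (s : Fin m → ℕ) (l : ℕ) :
    S (fun j => x (j + 1)) (s + wt (x 0).wa + (x 0).e₂.1) l = S x s (l + 1) := by
  simp only [S, Finset.sum_range_succ']; ring

/-- validity of run data -/
structure Valid (k : ℕ) (x : ℕ → Seg A ι κ) (s : Fin m → ℕ) : Prop where
  pa : ∀ l ≤ k, IsPath true (x l).q (x l).wa (x l).p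
  pb : ∀ l ≤ k, IsPath false (x l).r (x l).wb (x l).r'
  tb : ∀ l < k, TB (x l).p (x l).r (x l).e₁ (x (l + 1)).q (x l).e₂
  te : ∀ l < k, TE (x l).r'
  de : ∀ l < k, dec a g (x l) = S x s l + wt (x l).wa + (x l).e₁.1 + wt (x l).wb
  tk : TE (x k).q
  dk : dec a g (x k) = S x s k

variable {a g}

theorem Valid.runs (hC : ∀ x, x ∈ A.C ↔ ∃ (i : ι) (c : κ → ℕ), x = a i + ∑ j, c j • g i j) :
    ∀ (k : ℕ) (x : ℕ → Seg A ι κ) (s : Fin m → ℕ), Valid a g k x s →
      A.Runs (cat ((List.range k).map fun l => ((x l).wa.length, (x l).wb.length))) (x 0).q s := by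
  have hdec : ∀ x : Seg A ι κ, dec a g x ∈ A.C := fun x => (hC _).2 ⟨x.i, x.c, rfl⟩
  intro k
  induction k with
  | zero =>
    intro x s h
    simp only [List.range_zero, List.map_nil, cat]
    rw [runs_leaf]
    refine ⟨h.tk, ?_⟩
    have := h.dk
    rw [S_zero] at this
    rw [← this]
    exact hdec _
  | succ k ih =>
    intro x s h
    rw [List.range_succ_eq_map, List.map_cons, List.map_map, cat]
    refine runs_chain_of _ _ _ _ (h.pa 0 (by omega)) ?_
    refine runs_bin_of (h.tb 0 (by omega)) ?_ ?_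
    · refine runs_chain_of _ _ _ _ (h.pb 0 (by omega)) ?_
      rw [runs_leaf]
      refine ⟨h.te 0 (by omega), ?_⟩
      have := h.de 0 (by omega)
      rw [S_zero] at this
      rw [← this]
      exact hdec _
    · refine ih (fun j => x (j + 1)) _ ⟨fun l hl => h.pa (l + 1) (by omega),
        fun l hl => h.pb (l + 1) (by omega), fun l hl => h.tb (l + 1) (by omega),
        fun l hl => h.te (l + 1) (by omega), fun l hl => ?_, h.tk, ?_⟩
      · rw [S_shift]; exact h.de (l + 1) (by omega)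
      · rw [S_shift]; exact h.dk

theorem exists_valid (hA : A.IsPTA)
    (hC : ∀ x, x ∈ A.C ↔ ∃ (i : ι) (c : κ → ℕ), x = a i + ∑ j, c j • g i j) :
    ∀ (k : ℕ) (n : ℕ → ℕ × ℕ) (q : A.Q) (s : Fin m → ℕ),
      A.Runs (cat ((List.range k).map n)) q s →
      ∃ x : ℕ → Seg A ι κ, Valid a g k x s ∧ (x 0).q = q ∧
        ∀ l < k, ((x l).wa.length, (x l).wb.length) = n l := by
  intro k
  induction k with
  | zero =>
    intro n q s h
    simp only [List.range_zero, List.map_nil, cat] at h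
    rw [runs_leaf] at h
    obtain ⟨h1, h2⟩ := h
    obtain ⟨i, c, hic⟩ := (hC _).1 h2
    refine ⟨fun _ => ⟨q, q, q, q, zeroInc A, zeroInc A, i, [], [], c⟩, ⟨fun _ _ => rfl,
      fun _ _ => rfl, fun l hl => absurd hl (by omega), fun l hl => absurd hl (by omega),
      fun l hl => absurd hl (by omega), h1, ?_⟩, rfl, fun l hl => absurd hl (by omega)⟩
    rw [S_zero]; exact hic.symm
  | succ k ih =>
    intro n q s h
    rw [List.range_succ_eq_map, List.map_cons, List.map_map] at h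
    obtain ⟨n0, m0, hn⟩ : ∃ n0 m0, n 0 = (n0, m0) := ⟨_, _, rfl⟩
    rw [hn, cat] at h
    obtain ⟨wa, p, ha1, ha2, h⟩ := runs_chain_to hA _ _ _ h
    obtain ⟨r, e₁, q₂, e₂, hT, h1, h2⟩ := runs_bin_to hA h
    obtain ⟨wb, r', hb1, hb2, h3⟩ := runs_chain_to hA _ _ _ h1
    rw [runs_leaf] at h3
    obtain ⟨h4, h5⟩ := h3
    obtain ⟨i, c, hic⟩ := (hC _).1 h5
    obtain ⟨x, hx, hx0, hxl⟩ := ih (fun j => n (j + 1)) _ _ h2
    set y : ℕ → Seg A ι κ := fun l => match l with
      | 0 => ⟨q, p, r, r', e₁, e₂, i, wa, wb, c⟩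
      | l + 1 => x l with hy
    have hS : ∀ l, S y s (l + 1) = S x (s + wt wa + e₂.1) l := fun l => (S_shift y s l).symm
    refine ⟨y, ⟨?_, ?_, ?_, ?_, ?_, hx.tk, ?_⟩, rfl, ?_⟩
    · intro l hl
      match l with
      | 0 => exact ha2
      | l + 1 => exact hx.pa l (by omega)
    · intro l hl
      match l with
      | 0 => exact hb2
      | l + 1 => exact hx.pb l (by omega)
    · intro l hl
      match l with
      | 0 => show TB p r e₁ (x 0).q e₂; rw [hx0]; exact hT
      | l + 1 => exact hx.tb l (by omega)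
    · intro l hl
      match l with
      | 0 => exact h4
      | l + 1 => exact hx.te l (by omega)
    · intro l hl
      match l with
      | 0 => rw [S_zero]; exact hic.symm
      | l + 1 => rw [hS]; exact hx.de l (by omega)
    · rw [hS]; exact hx.dk
    · intro l hl
      match l with
      | 0 => rw [hn]; show (wa.length, wb.length) = _; rw [ha1, hb1]
      | l + 1 => exact hxl l (by omega)

/-- amalgamation -/
theorem Valid.amal {k : ℕ} {d u v : ℕ → Seg A ι κ} {s : Fin m → ℕ} (hd : Valid a g k d s)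
    (hu : Valid a g k u s) (hv : Valid a g k v s) (hdu : RelK k d u) (hdv : RelK k d v) :
    ∃ z : ℕ → Seg A ι κ, Valid a g k z s ∧ RelK k d z ∧
      ∀ l ≤ k, (z l).wa.length + (d l).wa.length = (u l).wa.length + (v l).wa.length ∧
        (z l).wb.length + (d l).wb.length = (u l).wb.length + (v l).wb.length ∧
        wt (z l).wa + wt (d l).wa = wt (u l).wa + wt (v l).wa := by
  have key : ∀ l, ∃ z : Seg A ι κ, l ≤ k → Rel (d l) z ∧ IsPath true z.q z.wa z.p ∧
      IsPath false z.r z.wb z.r' ∧ z.wa.length + (d l).wa.length =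
        (u l).wa.length + (v l).wa.length ∧
      z.wb.length + (d l).wb.length = (u l).wb.length + (v l).wb.length ∧
      wt z.wa + wt (d l).wa = wt (u l).wa + wt (v l).wa ∧
      wt z.wb + wt (d l).wb = wt (u l).wb + wt (v l).wb ∧
      dec a g z + dec a g (d l) = dec a g (u l) + dec a g (v l) := by
    intro l
    by_cases hl : l ≤ k
    swap
    · exact ⟨d l, fun h => absurd h hl⟩
    obtain ⟨a1, a2, a3, a4, a5, a6, a7, a8, a9, a10⟩ := hdu l hl
    obtain ⟨b1, b2, b3, b4, b5, b6, b7, b8, b9, b10⟩ := hdv l hl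
    have hpu := hu.pa l hl
    have hpv := hv.pa l hl
    have hqu := hu.pb l hl
    have hqv := hv.pb l hl
    rw [← a1, ← a2] at hpu
    rw [← b1, ← b2] at hpv
    rw [← a3, ← a4] at hqu
    rw [← b3, ← b4] at hqv
    obtain ⟨wa, c1, c2, c3, c4⟩ := amal_path _ _ _ _ (hd.pa l hl) hpu hpv a8 b8
    obtain ⟨wb, d1, d2, d3, d4⟩ := amal_path _ _ _ _ (hd.pb l hl) hqu hqv a9 b9
    refine ⟨⟨(d l).q, (d l).p, (d l).r, (d l).r', (d l).e₁, (d l).e₂, (d l).i, wa, wb,
      fun j => (u l).c j + (v l).c j - (d l).c j⟩, fun _ => ⟨⟨rfl, rfl, rfl, rfl, rfl, rfl, rfl,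
      c2, d2, ?_⟩, c1, d1, c3, d3, c4, d4, ?_⟩⟩
    · intro j
      have h1 : (d l).c j ≤ (u l).c j := a10 j
      have h2 : (d l).c j ≤ (v l).c j := b10 j
      show (d l).c j ≤ (u l).c j + (v l).c j - (d l).c j
      omega
    · unfold dec
      rw [← a7, ← b7]
      have : ∀ j, ((u l).c j + (v l).c j - (d l).c j) • g (d l).i j + (d l).c j • g (d l).i j =
          (u l).c j • g (d l).i j + (v l).c j • g (d l).i j := by
        intro j
        have h1 : (d l).c j ≤ (u l).c j := a10 j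
        rw [← add_smul, ← add_smul]
        congr 1
        omega
      calc _ = a (d l).i + a (d l).i + (∑ j, (((u l).c j + (v l).c j - (d l).c j) • g (d l).i j +
            (d l).c j • g (d l).i j)) := by rw [Finset.sum_add_distrib]; ring
        _ = _ := by rw [Finset.sum_congr rfl (fun j _ => this j), Finset.sum_add_distrib]; ring
  choose z hz using key
  have hS : ∀ l ≤ k, S z s l + S d s l = S u s l + S v s l := by
    intro l hl
    have : ∀ j ∈ Finset.range l, (wt (z j).wa + (z j).e₂.1) + (wt (d j).wa + (d j).e₂.1) =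
        (wt (u j).wa + (u j).e₂.1) + (wt (v j).wa + (v j).e₂.1) := by
      intro j hj
      rw [Finset.mem_range] at hj
      obtain ⟨h1, _, _, _, _, h6, _⟩ := hz j (by omega)
      have e1 : (d j).e₂ = (z j).e₂ := h1.2.2.2.2.2.1
      have e2 : (d j).e₂ = (u j).e₂ := (hdu j (by omega)).2.2.2.2.2.1
      have e3 : (d j).e₂ = (v j).e₂ := (hdv j (by omega)).2.2.2.2.2.1
      rw [← e1, ← e2, ← e3]
      calc _ = (wt (z j).wa + wt (d j).wa) + ((d j).e₂.1 + (d j).e₂.1) := by ring
        _ = _ := by rw [h6]; ring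
    have hsum : (∑ j ∈ Finset.range l, (wt (z j).wa + (z j).e₂.1)) +
        (∑ j ∈ Finset.range l, (wt (d j).wa + (d j).e₂.1)) =
        (∑ j ∈ Finset.range l, (wt (u j).wa + (u j).e₂.1)) +
        (∑ j ∈ Finset.range l, (wt (v j).wa + (v j).e₂.1)) := by
      rw [← Finset.sum_add_distrib, ← Finset.sum_add_distrib]
      exact Finset.sum_congr rfl this
    simp only [S]
    rw [add_add_add_comm, hsum, add_add_add_comm]
  refine ⟨z, ⟨fun l hl => (hz l hl).2.1, fun l hl => (hz l hl).2.2.1, ?_, ?_, ?_, ?_, ?_⟩,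
    fun l hl => (hz l hl).1, fun l hl => ⟨(hz l hl).2.2.2.1, (hz l hl).2.2.2.2.1,
      (hz l hl).2.2.2.2.2.1⟩⟩
  · intro l hl
    have h1 := (hz l hl.le).1
    have h2 := (hz (l + 1) (by omega)).1
    have := hd.tb l hl
    rw [h1.2.1, h1.2.2.1, h1.2.2.2.2.1, h1.2.2.2.2.2.1, h2.1] at this
    exact this
  · intro l hl
    have := hd.te l hl
    rw [(hz l hl.le).1.2.2.2.1] at this
    exact this
  · intro l hl
    obtain ⟨h1, _, _, _, _, h6, h7, h8⟩ := hz l hl.le
    have e1 : (d l).e₁ = (z l).e₁ := h1.2.2.2.2.1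
    have e2 : (d l).e₁ = (u l).e₁ := (hdu l hl.le).2.2.2.2.1
    have e3 : (d l).e₁ = (v l).e₁ := (hdv l hl.le).2.2.2.2.1
    have h9 := hS l hl.le
    rw [hd.de l hl, hu.de l hl, hv.de l hl] at h8
    refine add_right_cancel (b := S d s l + wt (d l).wa + (d l).e₁.1 + wt (d l).wb) ?_
    rw [h8, ← e1, ← e2, ← e3]
    calc _ = (S u s l + S v s l) + (wt (u l).wa + wt (v l).wa) + ((d l).e₁.1 + (d l).e₁.1) +
          (wt (u l).wb + wt (v l).wb) := by ring
      _ = _ := by rw [← h9, ← h6, ← h7]; ring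
  · have := hd.tk
    rw [(hz k le_rfl).1.1] at this
    exact this
  · obtain ⟨_, _, _, _, _, _, _, h8⟩ := hz k le_rfl
    rw [hd.dk, hu.dk, hv.dk, ← hS k le_rfl] at h8
    exact add_right_cancel h8

end Q229.PT
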