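import Mathlib.ModelTheory.Arithmetic.Presburger.Semilinear.Defs
import Mathlib.Data.Fin.VecNotation
import Mathlib.Data.Set.Finite.Basic

/-!
# Parikh tree automata with reset
-/

set_option autoImplicit false

namespace Q229.PT

/-- Finite trees over the ranked alphabet `(S, rk)`: a node labelled `σ` has `rk σ` ordered
children. -/
inductive Tree (S : Type) (rk : S → ℕ) : Type
  | node (σ : S) (ch : Fin (rk σ) → Tree S rk) : Tree S rk

/-- A Parikh tree automaton with reset with `m` counters (an `m`-PTAR).  A transition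
`q → σ(q₁(e₁), …, q_k(e_k))` is the triple of `σ`, `q` and the function `i ↦ (qᵢ, eᵢ)`, where
`eᵢ = none` is the reset symbol and `eᵢ = some v` the vector `v`.  For `k = 0` it is the transition
`q → σ`. -/
structure PTAR (S : Type) (rk : S → ℕ) (m : ℕ) where
  /-- the states -/
  Q : Type
  finite_Q : Finite Q
  /-- the initial state -/
  q0 : Q
  /-- the transitions -/
  Δ : Set (Σ σ : S, Q × (Fin (rk σ) → Q × Option (Fin m → ℕ)))
  finite_Δ : Δ.Finite
  /-- the acceptance set -/
  C : Set (Fin m → ℕ)
  semilinear_C : IsSemilinearSet C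

namespace PTAR

variable {S : Type} {rk : S → ℕ} {m : ℕ}

/-- The automaton has a run on the given tree whose root gets the given pair of a state and a
vector: some transition applies at the root; the `i`-th child gets the state `qᵢ` and the vector
`s + eᵢ`, or `0` if `eᵢ` is the reset symbol; and at the leaves the vector lies in `C`. -/
def Runs (A : PTAR S rk m) : Tree S rk → A.Q → (Fin m → ℕ) → Prop
  | .node σ ch, q, s => ∃ τ : Fin (rk σ) → A.Q × Option (Fin m → ℕ),
      (⟨σ, q, τ⟩ : Σ σ : S, A.Q × (Fin (rk σ) → A.Q × Option (Fin m → ℕ))) ∈ A.Δ ∧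
      (rk σ = 0 → s ∈ A.C) ∧
      ∀ i, A.Runs (ch i) (τ i).1 (match (τ i).2 with
        | none => 0
        | some e => s + e)

/-- The recognised tree language. -/
def lang (A : PTAR S rk m) : Set (Tree S rk) := {ξ | A.Runs ξ A.q0 0}

/-- A Parikh tree automaton (PTA): no transition contains the reset symbol. -/
def IsPTA (A : PTAR S rk m) : Prop := ∀ t ∈ A.Δ, ∀ i, (t.2.2 i).2 ≠ none

/-- Linear PTAR: in each transition at most one `eᵢ` is not the reset symbol. -/
def IsLinear (A : PTAR S rk m) : Prop :=
  ∀ t ∈ A.Δ, ∀ i j, (t.2.2 i).2 ≠ none → (t.2.2 j).2 ≠ none → i = j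

end PTAR

/-- The alphabet: `c` of rank two, the letters `a = u true` and `b = u false` of rank one, and the
leaf symbol `e`. -/
inductive Sym : Type
  | c : Sym
  | u (x : Bool) : Sym
  | e : Sym

/-- the ranks -/
def Sym.rk : Sym → ℕ
  | .c => 2
  | .u _ => 1
  | .e => 0

/-- trees over this alphabet -/
abbrev Tr : Type := Tree Sym Sym.rk

/-- the leaf -/
def leaf : Tr := .node .e (fun i => i.elim0)

/-- `x ^ n` above the tree `t` -/
def chain (x : Bool) : ℕ → Tr → Tr
  | 0, t => t
  | n + 1, t => .node (.u x) (fun _ => chain x n t)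

/-- the symbol `c` with two subtrees -/
def bin (t₁ t₂ : Tr) : Tr := .node .c (fun i : Fin 2 => if i = 0 then t₁ else t₂)

/-- The caterpillar `aⁿ¹ c(bᵐ¹ e, aⁿ² c(bᵐ² e, … e))`. -/
def cat : List (ℕ × ℕ) → Tr
  | [] => leaf
  | (n, k) :: l => chain true n (bin (chain false k leaf) (cat l))

end Q229.PT
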