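import Pool.Agent.Q229.PT.Data

/-!
# Parikh tree automata with reset are more expressive
-/

set_option autoImplicit false

namespace Q229.PT

variable {m : ℕ} {A : PTAR Sym Sym.rk m} {ι κ : Type} [Fintype κ] {a : ι → Fin m → ℕ}
  {g : ι → κ → Fin m → ℕ}

theorem pump1 {k : ℕ} {s : Fin m → ℕ} {d u x : ℕ → Seg A ι κ} (hd : Valid a g k d s)
    (hu : Valid a g k u s) (hdu : RelK k d u) (hx : Valid a g k x s) (hdx : RelK k d x) :
    ∀ n : ℕ, ∃ z, Valid a g k z s ∧ RelK k d z ∧ ∀ l ≤ k,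
      ((z l).wa.length : ℤ) = (x l).wa.length + n * ((u l).wa.length - (d l).wa.length) ∧
      ((z l).wb.length : ℤ) = (x l).wb.length + n * ((u l).wb.length - (d l).wb.length) ∧
      ∀ c : Fin m, (wt (z l).wa c : ℤ) =
        wt (x l).wa c + n * (wt (u l).wa c - wt (d l).wa c) := by
  intro n
  induction n with
  | zero => exact ⟨x, hx, hdx, fun l _ => by simp⟩
  | succ n ih =>
    obtain ⟨y, hy1, hy2, hy3⟩ := ih
    obtain ⟨z, hz1, hz2, hz3⟩ := hd.amal hy1 hu hy2 hdu
    refine ⟨z, hz1, hz2, fun l hl => ?_⟩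
    obtain ⟨a1, a2, a3⟩ := hy3 l hl
    obtain ⟨b1, b2, b3⟩ := hz3 l hl
    refine ⟨?_, ?_, fun c => ?_⟩
    · have : ((z l).wa.length : ℤ) + (d l).wa.length = (y l).wa.length + (u l).wa.length := by
        exact_mod_cast b1
      push_cast
      linarith
    · have : ((z l).wb.length : ℤ) + (d l).wb.length = (y l).wb.length + (u l).wb.length := by
        exact_mod_cast b2
      push_cast
      linarith
    · have h1 := congrFun b3 c
      have : (wt (z l).wa c : ℤ) + wt (d l).wa c = wt (y l).wa c + wt (u l).wa c := by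
        exact_mod_cast h1
      have := a3 c
      push_cast
      linarith

theorem pump {k N : ℕ} {s : Fin m → ℕ} {d : ℕ → Seg A ι κ} {u : Fin N → ℕ → Seg A ι κ}
    (hd : Valid a g k d s) (hu : ∀ i, Valid a g k (u i) s) (hdu : ∀ i, RelK k d (u i))
    (lam : Fin N → ℕ) : ∃ z, Valid a g k z s ∧ RelK k d z ∧ ∀ l ≤ k,
      ((z l).wa.length : ℤ) = (d l).wa.length +
        ∑ i, (lam i : ℤ) * ((u i l).wa.length - (d l).wa.length) ∧
      ((z l).wb.length : ℤ) = (d l).wb.length +
        ∑ i, (lam i : ℤ) * ((u i l).wb.length - (d l).wb.length) ∧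
      ∀ c : Fin m, (wt (z l).wa c : ℤ) =
        wt (d l).wa c + ∑ i, (lam i : ℤ) * (wt (u i l).wa c - wt (d l).wa c) := by
  suffices h : ∀ T : Finset (Fin N), ∃ z, Valid a g k z s ∧ RelK k d z ∧ ∀ l ≤ k,
      ((z l).wa.length : ℤ) = (d l).wa.length +
        ∑ i ∈ T, (lam i : ℤ) * ((u i l).wa.length - (d l).wa.length) ∧
      ((z l).wb.length : ℤ) = (d l).wb.length +
        ∑ i ∈ T, (lam i : ℤ) * ((u i l).wb.length - (d l).wb.length) ∧
      ∀ c : Fin m, (wt (z l).wa c : ℤ) =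
        wt (d l).wa c + ∑ i ∈ T, (lam i : ℤ) * (wt (u i l).wa c - wt (d l).wa c) from
    h Finset.univ
  intro T
  induction T using Finset.induction_on with
  | empty => exact ⟨d, hd, fun l _ => Rel.refl _, fun l _ => by simp⟩
  | insert i T hi ih =>
    obtain ⟨x, hx1, hx2, hx3⟩ := ih
    obtain ⟨z, hz1, hz2, hz3⟩ := pump1 hd (hu i) (hdu i) hx1 hx2 (lam i)
    refine ⟨z, hz1, hz2, fun l hl => ?_⟩
    obtain ⟨a1, a2, a3⟩ := hx3 l hl
    obtain ⟨b1, b2, b3⟩ := hz3 l hl
    refine ⟨?_, ?_, fun c => ?_⟩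
    · rw [Finset.sum_insert hi, b1, a1]; ring
    · rw [Finset.sum_insert hi, b2, a2]; ring
    · rw [Finset.sum_insert hi, b3 c, a3 c]; ring

/-- **No PTA recognises exactly the matched caterpillars.** -/
theorem no_pta (A : PTAR Sym Sym.rk m) (hA : A.IsPTA)
    (h1 : ∀ l : List (ℕ × ℕ), (∀ p ∈ l, p.1 = p.2) → cat l ∈ A.lang)
    (h2 : ∀ l : List (ℕ × ℕ), cat l ∈ A.lang → ∀ p ∈ l, p.1 = p.2) : False := by
  obtain ⟨ι, κ, hι, hκ, a, g, hC⟩ := rep_of_semilinear A.semilinear_C
  set k := m + 1 with hk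
  -- run data for all tuples
  have hdata : ∀ n : ℕ → ℕ, ∃ x : ℕ → Seg A ι κ, Valid a g k x 0 ∧ (x 0).q = A.q0 ∧
      ∀ l < k, (x l).wa.length = n l ∧ (x l).wb.length = n l := by
    intro n
    have h3 : A.Runs (cat ((List.range k).map fun l => (n l, n l))) A.q0 0 :=
      h1 _ (by
        intro p hp
        rw [List.mem_map] at hp
        obtain ⟨l, _, rfl⟩ := hp
        rfl)
    obtain ⟨x, hx1, hx2, hx3⟩ := exists_valid hA hC k (fun l => (n l, n l)) A.q0 0 h3
    exact ⟨x, hx1, hx2, fun l hl => by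
      have := hx3 l hl
      rw [Prod.mk.injEq] at this
      exact this⟩
  choose ρ hρ1 hρ2 hρ3 using hdata
  obtain ⟨n, _, hbase⟩ := base_exists (wqo_relK k) ρ k (fun _ => 0)
  have hbase' : ∀ i : Fin k, ∃ n' : ℕ → ℕ, (∀ l, (i : ℕ) < l → n' l = n l) ∧ n i < n' i ∧
      RelK k (ρ n) (ρ n') := fun i => hbase i i.2
  choose n' hn1 hn2 hn3 using hbase'
  set d := ρ n with hd
  set u : Fin k → ℕ → Seg A ι κ := fun i => ρ (n' i) with hu
  have hdV : Valid a g k d 0 := hρ1 n
  have huV : ∀ i, Valid a g k (u i) 0 := fun i => hρ1 (n' i)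
  have hda : ∀ l < k, (d l).wa.length = n l := fun l hl => (hρ3 n l hl).1
  have hdb : ∀ l < k, (d l).wb.length = n l := fun l hl => (hρ3 n l hl).2
  have hua : ∀ i, ∀ l < k, (u i l).wa.length = n' i l := fun i l hl => (hρ3 (n' i) l hl).1
  have hub : ∀ i, ∀ l < k, (u i l).wb.length = n' i l := fun i l hl => (hρ3 (n' i) l hl).2
  -- a linear dependence
  set T : Fin k → Fin m → ℤ := fun i c =>
    ∑ l ∈ Finset.range k, ((wt (u i l).wa c : ℤ) - wt (d l).wa c) with hT
  have hdep : ¬ LinearIndependent ℤ T := by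
    intro h
    have := h.fintype_card_le_finrank
    simp [hk] at this
  rw [Fintype.not_linearIndependent_iff] at hdep
  obtain ⟨β, hβ, i0, hi0⟩ := hdep
  obtain ⟨i, hi, hmax⟩ := Finset.exists_max_image (Finset.univ.filter fun i => β i ≠ 0) id
    ⟨i0, by simp [hi0]⟩
  simp only [Finset.mem_filter, Finset.mem_univ, true_and, id] at hi hmax
  obtain ⟨x, hx1, hx2, hx3⟩ := pump hdV huV hn3 (fun i => (-(β i)).toNat)
  obtain ⟨y, hy1, hy2, hy3⟩ := pump hdV huV hn3 (fun i => (β i).toNat)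
  have hD0 : ∀ (j : Fin k) (l : ℕ), l < k → (j : ℕ) < l → (u j l).wa = (d l).wa := by
    intro j l hl hjl
    refine ((hn3 j l hl.le).2.2.2.2.2.2.2.1.eq_of_length ?_).symm
    show (d l).wa.length = (u j l).wa.length
    rw [hda l hl, hua j l hl, hn1 j l hjl]
  have hzero : ∀ j : Fin k, i < j → β j = 0 := by
    intro j hj
    by_contra h
    exact absurd (hmax j h) (not_le.2 hj)
  -- segments after `i` have the same weight
  have htail : ∀ l, (i : ℕ) < l → l < k → ∀ c, (wt (x l).wa c : ℤ) = wt (y l).wa c := by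
    intro l hil hl c
    rw [(hx3 l hl.le).2.2 c, (hy3 l hl.le).2.2 c]
    congr 1
    rw [Finset.sum_eq_zero, Finset.sum_eq_zero]
    · intro j _
      rcases lt_or_ge i j with h | h
      · simp [hzero j h]
      · rw [hD0 j l hl (lt_of_le_of_lt h hil)]; simp
    · intro j _
      rcases lt_or_ge i j with h | h
      · simp [hzero j h]
      · rw [hD0 j l hl (lt_of_le_of_lt h hil)]; simp
  -- the total weights agree
  have htot : ∀ c, ∑ l ∈ Finset.range k, (wt (x l).wa c : ℤ) =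
      ∑ l ∈ Finset.range k, (wt (y l).wa c : ℤ) := by
    intro c
    have e1 : ∑ l ∈ Finset.range k, (wt (x l).wa c : ℤ) = ∑ l ∈ Finset.range k,
        (wt (d l).wa c : ℤ) + ∑ j, ((-(β j)).toNat : ℤ) * T j c := by
      rw [Finset.sum_congr rfl (fun l hl => (hx3 l (Finset.mem_range.1 hl).le).2.2 c),
        Finset.sum_add_distrib, Finset.sum_comm]
      congr 1
      exact Finset.sum_congr rfl fun j _ => by rw [hT, Finset.mul_sum]
    have e2 : ∑ l ∈ Finset.range k, (wt (y l).wa c : ℤ) = ∑ l ∈ Finset.range k,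
        (wt (d l).wa c : ℤ) + ∑ j, ((β j).toNat : ℤ) * T j c := by
      rw [Finset.sum_congr rfl (fun l hl => (hy3 l (Finset.mem_range.1 hl).le).2.2 c),
        Finset.sum_add_distrib, Finset.sum_comm]
      congr 1
      exact Finset.sum_congr rfl fun j _ => by rw [hT, Finset.mul_sum]
    rw [e1, e2]
    congr 1
    have h3 := congrFun hβ c
    simp only [Finset.sum_apply, Pi.smul_apply, smul_eq_mul, Pi.zero_apply] at h3
    have h4 : ∀ j, β j * T j c = ((β j).toNat : ℤ) * T j c - ((-(β j)).toNat : ℤ) * T j c := by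
      intro j
      rw [← sub_mul]
      congr 1
      omega
    rw [Finset.sum_congr rfl (fun j _ => h4 j), Finset.sum_sub_distrib] at h3
    linarith
  have hhead : ∀ c, ∑ l ∈ Finset.range (i + 1), (wt (x l).wa c : ℤ) =
      ∑ l ∈ Finset.range (i + 1), (wt (y l).wa c : ℤ) := by
    intro c
    have hik : (i : ℕ) + 1 ≤ k := i.2
    have h3 := htot c
    have h4 : ∑ l ∈ Finset.Ico ((i : ℕ) + 1) k, (wt (x l).wa c : ℤ) =
        ∑ l ∈ Finset.Ico ((i : ℕ) + 1) k, (wt (y l).wa c : ℤ) :=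
      Finset.sum_congr rfl (fun l hl => by
        rw [Finset.mem_Ico] at hl
        exact htail l (by omega) hl.2 c)
    rw [← Finset.sum_range_add_sum_Ico _ hik, ← Finset.sum_range_add_sum_Ico _ hik, h4] at h3
    exact add_right_cancel h3
  have he : ∀ l ≤ k, (x l).e₂ = (y l).e₂ := fun l hl =>
    (hx2 l hl).2.2.2.2.2.1.symm.trans (hy2 l hl).2.2.2.2.2.1
  have hSxy : S x 0 i + wt (x i).wa = S y 0 i + wt (y i).wa := by
    funext c
    have h3 := hhead c
    rw [Finset.sum_range_succ, Finset.sum_range_succ] at h3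
    have h4 : ∀ x : ℕ → Seg A ι κ, (S x 0 i + wt (x i).wa) c = (∑ l ∈ Finset.range i,
        wt (x l).wa c + wt (x i).wa c) + ∑ l ∈ Finset.range i, (x l).e₂.1 c := by
      intro x
      simp only [S, Pi.add_apply, zero_add, Finset.sum_apply]
      rw [Finset.sum_add_distrib]
      omega
    rw [h4, h4]
    congr 1
    · exact_mod_cast h3
    · refine Finset.sum_congr rfl fun l hl => ?_
      rw [Finset.mem_range] at hl
      rw [he l (by omega)]
  -- swap the side branches at `i`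
  classical
  have hik : (i : ℕ) < k := i.2
  set z : ℕ → Seg A ι κ := fun l => if l = i then
    ⟨(x i).q, (x i).p, (x i).r, (y i).r', (x i).e₁, (x i).e₂, (y i).i, (x i).wa, (y i).wb,
      (y i).c⟩ else x l with hz
  have hzi : z i = ⟨(x i).q, (x i).p, (x i).r, (y i).r', (x i).e₁, (x i).e₂, (y i).i, (x i).wa,
      (y i).wb, (y i).c⟩ := by rw [hz]; simp
  have hzl : ∀ l : ℕ, l ≠ (i : ℕ) → z l = x l := fun l hl => by rw [hz]; simp [hl]
  have hzq : ∀ l : ℕ, (z l).q = (x l).q := fun l => by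
    by_cases h : l = (i : ℕ)
    · rw [h, hzi]
    · rw [hzl l h]
  have hzp : ∀ l : ℕ, (z l).p = (x l).p := fun l => by
    by_cases h : l = (i : ℕ)
    · rw [h, hzi]
    · rw [hzl l h]
  have hzr : ∀ l : ℕ, (z l).r = (x l).r := fun l => by
    by_cases h : l = (i : ℕ)
    · rw [h, hzi]
    · rw [hzl l h]
  have hze1 : ∀ l : ℕ, (z l).e₁ = (x l).e₁ := fun l => by
    by_cases h : l = (i : ℕ)
    · rw [h, hzi]
    · rw [hzl l h]
  have hze2 : ∀ l : ℕ, (z l).e₂ = (x l).e₂ := fun l => by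
    by_cases h : l = (i : ℕ)
    · rw [h, hzi]
    · rw [hzl l h]
  have hzwa : ∀ l : ℕ, (z l).wa = (x l).wa := fun l => by
    by_cases h : l = (i : ℕ)
    · rw [h, hzi]
    · rw [hzl l h]
  have hzS : ∀ l : ℕ, S z 0 l = S x 0 l := fun l => by
    simp only [S]
    congr 1
    exact Finset.sum_congr rfl fun j _ => by rw [hzwa, hze2]
  have hr : (x i).r = (y i).r := (hx2 i hik.le).2.2.1.symm.trans (hy2 i hik.le).2.2.1
  have he1 : (x i).e₁ = (y i).e₁ :=
    (hx2 i hik.le).2.2.2.2.1.symm.trans (hy2 i hik.le).2.2.2.2.1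
  have hzV : Valid a g k z 0 := by
    refine ⟨?_, ?_, ?_, ?_, ?_, ?_, ?_⟩
    · intro l hl
      rw [hzq, hzwa, hzp]; exact hx1.pa l hl
    · intro l hl
      by_cases h : l = (i : ℕ)
      · rw [h, hzi]
        show IsPath false (x i).r (y i).wb (y i).r'
        rw [hr]
        exact hy1.pb i hik.le
      · rw [hzl l h]; exact hx1.pb l hl
    · intro l hl
      rw [hzp, hzr, hze1, hzq, hze2]; exact hx1.tb l hl
    · intro l hl
      by_cases h : l = (i : ℕ)
      · rw [h, hzi]; exact hy1.te i hik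
      · rw [hzl l h]; exact hx1.te l hl
    · intro l hl
      rw [hzS]
      by_cases h : l = (i : ℕ)
      · rw [h, hzi]
        show dec a g (y i) = S x 0 i + wt (x i).wa + (x i).e₁.1 + wt (y i).wb
        rw [hSxy, he1]
        exact hy1.de i hik
      · rw [hzl l h]; exact hx1.de l hl
    · rw [hzq]; exact hx1.tk
    · rw [hzS, hzl k (by omega)]; exact hx1.dk
  have hrun := Valid.runs hC k z 0 hzV
  have hq0 : (z 0).q = A.q0 := by
    rw [hzq, ← (hx2 0 (by omega)).1]
    exact hρ2 n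
  rw [hq0] at hrun
  have h5 := h2 _ hrun ((z i).wa.length, (z i).wb.length)
    (List.mem_map.2 ⟨i, List.mem_range.2 hik, rfl⟩)
  rw [hzi] at h5
  simp only at h5
  have h6 := (hx3 i hik.le).1
  have h7 := (hy3 i hik.le).2.1
  rw [Finset.sum_eq_single i] at h6 h7
  · rw [hda i hik, hua i i hik] at h6
    rw [hdb i hik, hub i i hik] at h7
    have h8 : ((n' i i : ℤ) - n i) ≠ 0 := by
      have := hn2 i
      omega
    have h9 : ((-(β i)).toNat : ℤ) * ((n' i i : ℤ) - n i) =
        ((β i).toNat : ℤ) * ((n' i i : ℤ) - n i) := by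
      have : ((x i).wa.length : ℤ) = (y i).wb.length := by exact_mod_cast h5
      linarith
    have h10 := mul_right_cancel₀ h8 h9
    omega
  · intro j _ hj
    rcases lt_or_gt_of_ne hj with h | h
    · rw [hdb i hik, hub j i hik, hn1 j i h]; simp
    · simp [hzero j h]
  · simp
  · intro j _ hj
    rcases lt_or_gt_of_ne hj with h | h
    · rw [hda i hik, hua j i hik, hn1 j i h]; simp
    · simp [hzero j h]
  · simp

end Q229.PT
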