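import Mathlib.Order.WellFoundedSet
import Mathlib.ModelTheory.Arithmetic.Presburger.Semilinear.Defs
import Mathlib.LinearAlgebra.Finsupp.LinearCombination
import Mathlib.Algebra.Module.Submodule.Lattice
import Mathlib.Algebra.Module.NatInt
import Mathlib

/-!
# Well-quasi-orders, base points, and semilinear sets
-/

set_option autoImplicit false

namespace Q229.PT

theorem wqo_sublist (A : Type) [Finite A] : WellQuasiOrdered (fun a b : List A => a.Sublist b) := by
  have h1 : (Set.univ : Set A).PartiallyWellOrderedOn (fun a b : A => a = b) :=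
    Set.partiallyWellOrderedOn_of_wellQuasiOrdered (Finite.wellQuasiOrdered _) _
  have h2 := Set.PartiallyWellOrderedOn.partiallyWellOrderedOn_sublistForall₂
    (fun a b : A => a = b) h1
  have h3 : {l : List A | ∀ x, x ∈ l → x ∈ (Set.univ : Set A)} = Set.univ := by
    ext l; simp
  rw [h3, Set.partiallyWellOrderedOn_univ_iff] at h2
  intro f
  obtain ⟨m, n, h, hf⟩ := h2 f
  refine ⟨m, n, h, ?_⟩
  rw [List.sublistForall₂_iff] at hf
  obtain ⟨l, hl, hl'⟩ := hf
  have : f m = l := by
    have h5 : List.Forall₂ Eq (f m) l := hl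
    rwa [List.forall₂_eq_eq_eq] at h5
  rw [this]
  exact hl'

/-- **Base points.**  For a map from sequences to a well-quasi-ordered set there is a base `n` such
that for every `i < k` some comparable `n'` agrees with `n` after `i` and is larger at `i`. -/
theorem base_exists {X : Type} {r : X → X → Prop} (hr : WellQuasiOrdered r) (ρ : (ℕ → ℕ) → X) :
    ∀ (k : ℕ) (f : ℕ → ℕ), ∃ n : ℕ → ℕ, (∀ l, k ≤ l → n l = f l) ∧
      ∀ i < k, ∃ n' : ℕ → ℕ, (∀ l, i < l → n' l = n l) ∧ n i < n' i ∧ r (ρ n) (ρ n') := by
  intro k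
  induction k with
  | zero => intro f; exact ⟨f, fun _ _ => rfl, fun i hi => absurd hi (Nat.not_lt_zero i)⟩
  | succ k ih =>
    intro f
    choose b hb1 hb2 using fun v => ih (Function.update f k v)
    obtain ⟨v, w, hvw, hr'⟩ := hr (fun v => ρ (b v))
    have hbv : ∀ v, b v k = v := fun v => by rw [hb1 v k le_rfl, Function.update_self]
    have hbl : ∀ v l, k < l → b v l = f l := fun v l hl => by
      rw [hb1 v l hl.le, Function.update_of_ne hl.ne']
    refine ⟨b v, fun l hl => hbl v l (by omega), ?_⟩
    intro i hi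
    rcases Nat.lt_or_ge i k with h | h
    · exact hb2 v i h
    · have : i = k := by omega
      subst this
      exact ⟨b w, fun l hl => by rw [hbl w l hl, hbl v l hl], by rw [hbv, hbv]; exact hvw, hr'⟩

/-- a parametrisation of a semilinear set -/
theorem rep_of_semilinear {m : ℕ} {C : Set (Fin m → ℕ)} (h : IsSemilinearSet C) :
    ∃ (ι κ : Type) (_ : Finite ι) (_ : Fintype κ) (a : ι → Fin m → ℕ) (g : ι → κ → Fin m → ℕ),
      ∀ x, x ∈ C ↔ ∃ (i : ι) (c : κ → ℕ), x = a i + ∑ j, c j • g i j := by
  obtain ⟨S, hS, hL, rfl⟩ := h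
  induction S, hS using Set.Finite.induction_on with
  | empty =>
    exact ⟨Empty, Empty, inferInstance, inferInstance, fun i => i.elim, fun i => i.elim,
      fun x => by simp⟩
  | @insert t S _ _ ih =>
    obtain ⟨ι, κ, hι, hκ, a, g, hrep⟩ := ih (fun t ht => hL t (Set.mem_insert_of_mem _ ht))
    obtain ⟨b, T, hT, rfl⟩ := hL t (Set.mem_insert _ _)
    have : Fintype T := hT.fintype
    refine ⟨ι ⊕ Unit, κ ⊕ T, inferInstance, inferInstance,
      fun i => i.elim a (fun _ => b),
      fun i j => match i, j with
        | Sum.inl i, Sum.inl j => g i j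
        | Sum.inr _, Sum.inr j => j.1
        | _, _ => 0, ?_⟩
    intro x
    rw [Set.sUnion_insert, Set.mem_union, hrep]
    constructor
    · rintro (h | ⟨i, c, rfl⟩)
      · rw [Set.mem_vadd_set] at h
        obtain ⟨y, hy, rfl⟩ := h
        have hy' : y ∈ Submodule.span ℕ (Set.range (fun j : T => (j : Fin m → ℕ))) := by
          rw [Subtype.range_coe]
          have : y ∈ (Submodule.span ℕ T).toAddSubmonoid := by
            rw [Submodule.span_nat_eq_addSubmonoidClosure]
            exact hy
          exact this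
        rw [Submodule.mem_span_range_iff_exists_fun] at hy'
        obtain ⟨c, rfl⟩ := hy'
        refine ⟨Sum.inr (), fun j => j.elim (fun _ => 0) c, ?_⟩
        simp [Fintype.sum_sum_type]
      · refine ⟨Sum.inl i, fun j => j.elim c (fun _ => 0), ?_⟩
        simp [Fintype.sum_sum_type]
    · rintro ⟨i | i, c, rfl⟩
      · right
        refine ⟨i, fun j => c (Sum.inl j), ?_⟩
        simp [Fintype.sum_sum_type]
      · left
        rw [Set.mem_vadd_set]
        refine ⟨∑ j : T, c (Sum.inr j) • (j : Fin m → ℕ), ?_, ?_⟩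
        · have : (∑ j : T, c (Sum.inr j) • (j : Fin m → ℕ)) ∈
              Submodule.span ℕ (Set.range (fun j : T => (j : Fin m → ℕ))) := by
            rw [Submodule.mem_span_range_iff_exists_fun]
            exact ⟨_, rfl⟩
          rw [Subtype.range_coe] at this
          have h2 : (∑ j : T, c (Sum.inr j) • (j : Fin m → ℕ)) ∈
              (Submodule.span ℕ T).toAddSubmonoid := this
          rw [Submodule.span_nat_eq_addSubmonoidClosure] at h2
          exact h2
        · simp [Fintype.sum_sum_type]

end Q229.PT
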