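import Pool.Agent.Q229.PT.Defs
import Pool.Agent.Q229.PT.Wqo

/-!
# Run data of Parikh tree automata on caterpillars
-/

set_option autoImplicit false

namespace Q229.PT

variable {m : ℕ} (A : PTAR Sym Sym.rk m)

/-- the set of the increments (and `0`) -/
def inc : Set (Fin m → ℕ) := {e | e = 0 ∨ ∃ t ∈ A.Δ, ∃ i, (t.2.2 i).2 = some e}

theorem inc_finite : (inc A).Finite := by
  have h1 : (⋃ t ∈ A.Δ, ⋃ i : Fin (Sym.rk t.1), {e | (t.2.2 i).2 = some e}).Finite := by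
    refine A.finite_Δ.biUnion fun t _ => Set.finite_iUnion fun i => ?_
    refine Set.Subsingleton.finite fun a ha b hb => ?_
    simp only [Set.mem_ofPred_eq] at ha hb
    rw [ha] at hb
    exact Option.some.inj hb
  refine (h1.insert 0).subset ?_
  rintro e (rfl | ⟨t, ht, i, hi⟩)
  · exact Set.mem_insert _ _
  · refine Set.mem_insert_of_mem _ ?_
    simp only [Set.mem_iUnion]
    exact ⟨t, ht, i, hi⟩

/-- increments as a finite type -/
abbrev Inc : Type := {e : Fin m → ℕ // e ∈ inc A}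

instance : Finite (Inc A) := (inc_finite A).to_subtype

/-- the zero increment -/
def zeroInc : Inc A := ⟨0, Or.inl rfl⟩

/-- letters: source, increment, target -/
abbrev Ltr : Type := A.Q × Inc A × A.Q

variable {A}

/-- the letter is a transition for the unary symbol `x` -/
def TU (x : Bool) (t : Ltr A) : Prop :=
  (⟨.u x, t.1, fun _ => (t.2.2, some t.2.1.1)⟩ : Σ σ : Sym, A.Q ×
    (Fin (Sym.rk σ) → A.Q × Option (Fin m → ℕ))) ∈ A.Δ

/-- transition at the leaf symbol -/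
def TE (q : A.Q) : Prop := ∃ τ, (⟨.e, q, τ⟩ : Σ σ : Sym, A.Q ×
    (Fin (Sym.rk σ) → A.Q × Option (Fin m → ℕ))) ∈ A.Δ

/-- transition at the binary symbol -/
def TB (q q₁ : A.Q) (e₁ : Inc A) (q₂ : A.Q) (e₂ : Inc A) : Prop :=
  ∃ τ : Fin 2 → A.Q × Option (Fin m → ℕ), (⟨.c, q, τ⟩ : Σ σ : Sym, A.Q ×
    (Fin (Sym.rk σ) → A.Q × Option (Fin m → ℕ))) ∈ A.Δ ∧ τ 0 = (q₁, some e₁.1) ∧
    τ 1 = (q₂, some e₂.1)

/-- total weight of a word -/
def wt (w : List (Ltr A)) : Fin m → ℕ := (w.map fun t => t.2.1.1).sum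

@[simp] theorem wt_nil : wt ([] : List (Ltr A)) = 0 := rfl

@[simp] theorem wt_cons (t : Ltr A) (w : List (Ltr A)) : wt (t :: w) = t.2.1.1 + wt w := by
  simp [wt]

@[simp] theorem wt_append (v w : List (Ltr A)) : wt (v ++ w) = wt v + wt w := by
  simp [wt]

/-- paths -/
def IsPath (x : Bool) : A.Q → List (Ltr A) → A.Q → Prop
  | q, [], q' => q = q'
  | q, t :: w, q' => t.1 = q ∧ TU x t ∧ IsPath x t.2.2 w q'

theorem isPath_append {x : Bool} {v w : List (Ltr A)} {q q'' : A.Q} :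
    IsPath x q (v ++ w) q'' ↔ ∃ q', IsPath x q v q' ∧ IsPath x q' w q'' := by
  induction v generalizing q with
  | nil => simp [IsPath]
  | cons t v ih =>
    simp only [List.cons_append, IsPath, ih]
    constructor
    · rintro ⟨h1, h2, q', h3, h4⟩; exact ⟨q', ⟨h1, h2, h3⟩, h4⟩
    · rintro ⟨q', ⟨h1, h2, h3⟩, h4⟩; exact ⟨h1, h2, q', h3, h4⟩

/-- amalgamation of paths -/
theorem amal_path {x : Bool} {q' : A.Q} : ∀ (w u v : List (Ltr A)) (q : A.Q), IsPath x q w q' →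
    IsPath x q u q' → IsPath x q v q' → w.Sublist u → w.Sublist v →
    ∃ z, IsPath x q z q' ∧ w.Sublist z ∧ z.length + w.length = u.length + v.length ∧
      wt z + wt w = wt u + wt v := by
  intro w
  induction w with
  | nil =>
    intro u v q hw hu hv _ _
    simp only [IsPath] at hw
    subst hw
    exact ⟨u ++ v, isPath_append.2 ⟨q, hu, hv⟩, by simp, by simp, by simp⟩
  | cons t w ih =>
    intro u v q hw hu hv hwu hwv
    have split : ∀ u : List (Ltr A), IsPath x q u q' → (t :: w).Sublist u →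
        ∃ u₀ u₁, u = u₀ ++ t :: u₁ ∧ IsPath x q u₀ q ∧ IsPath x t.2.2 u₁ q' ∧ w.Sublist u₁ := by
      intro u hu hs
      obtain ⟨r₁, r₂, rfl, h1, h2⟩ := List.cons_sublist_iff.1 hs
      obtain ⟨a, b, rfl⟩ := List.append_of_mem h1
      refine ⟨a, b ++ r₂, by simp, ?_, ?_, h2.trans (List.sublist_append_right _ _)⟩
      · rw [List.append_assoc, isPath_append] at hu
        obtain ⟨q₁, h3, h4⟩ := hu
        simp only [List.cons_append, IsPath] at h4
        rw [← hw.1]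
        rw [← h4.1] at h3
        rw [hw.1]
        rw [hw.1] at h3
        exact h3
      · rw [List.append_assoc, isPath_append] at hu
        obtain ⟨q₁, h3, h4⟩ := hu
        simp only [List.cons_append, IsPath] at h4
        exact h4.2.2
    obtain ⟨u₀, u₁, rfl, hu1, hu2, hu3⟩ := split u hu hwu
    obtain ⟨v₀, v₁, rfl, hv1, hv2, hv3⟩ := split v hv hwv
    obtain ⟨z, hz1, hz2, hz3, hz4⟩ := ih u₁ v₁ t.2.2 hw.2.2 hu2 hv2 hu3 hv3
    refine ⟨u₀ ++ (v₀ ++ t :: z), ?_, ?_, ?_, ?_⟩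
    · refine isPath_append.2 ⟨q, hu1, isPath_append.2 ⟨q, hv1, hw.1, hw.2.1, hz1⟩⟩
    · exact ((List.Sublist.cons_cons t hz2).trans (List.sublist_append_right _ _)).trans
        (List.sublist_append_right _ _)
    · simp only [List.length_append, List.length_cons]; omega
    · simp only [wt_append, wt_cons]
      calc _ = wt u₀ + wt v₀ + t.2.1.1 + t.2.1.1 + (wt z + wt w) := by ring
        _ = _ := by rw [hz4]; ring

theorem runs_leaf {q : A.Q} {s : Fin m → ℕ} : A.Runs leaf q s ↔ TE q ∧ s ∈ A.C := by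
  unfold leaf TE
  rw [PTAR.Runs]
  constructor
  · rintro ⟨τ, h1, h2, _⟩
    exact ⟨⟨τ, h1⟩, h2 rfl⟩
  · rintro ⟨⟨τ, h1⟩, h2⟩
    exact ⟨τ, h1, fun _ => h2, fun i => i.elim0⟩

theorem runs_chain_of {x : Bool} {t : Tr} : ∀ (w : List (Ltr A)) (q q' : A.Q) (s : Fin m → ℕ),
    IsPath x q w q' → A.Runs t q' (s + wt w) → A.Runs (chain x w.length t) q s := by
  intro w
  induction w with
  | nil =>
    intro q q' s h1 h2
    simp only [IsPath] at h1
    subst h1
    simpa [chain] using h2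
  | cons a w ih =>
    intro q q' s h1 h2
    obtain ⟨h3, h4, h5⟩ := h1
    rw [List.length_cons, chain, PTAR.Runs]
    refine ⟨fun _ => (a.2.2, some a.2.1.1), ?_, fun h => absurd h (by simp [Sym.rk]), ?_⟩
    · rw [← h3]; exact h4
    · intro i
      refine ih _ _ _ h5 ?_
      rw [wt_cons] at h2
      rw [add_assoc]
      exact h2

theorem runs_chain_to (hA : A.IsPTA) {x : Bool} {t : Tr} : ∀ (n : ℕ) (q : A.Q) (s : Fin m → ℕ),
    A.Runs (chain x n t) q s → ∃ (w : List (Ltr A)) (q' : A.Q), w.length = n ∧ IsPath x q w q' ∧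
      A.Runs t q' (s + wt w) := by
  intro n
  induction n with
  | zero => intro q s h; exact ⟨[], q, rfl, rfl, by simpa [chain] using h⟩
  | succ n ih =>
    intro q s h
    rw [chain, PTAR.Runs] at h
    obtain ⟨τ, h1, -, h3⟩ := h
    have h3' := h3 (0 : Fin 1)
    have h4 := hA _ h1 (0 : Fin 1)
    obtain ⟨⟨p, o⟩, hτ⟩ : ∃ z, τ (0 : Fin 1) = z := ⟨_, rfl⟩
    cases o with
    | none => exact absurd (by simp [hτ]) h4
    | some e =>
      simp only [hτ] at h3'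
      obtain ⟨w, q', hw1, hw2, hw3⟩ := ih _ _ h3'
      have he : e ∈ inc A := Or.inr ⟨_, h1, (0 : Fin 1), by simp [hτ]⟩
      refine ⟨(q, ⟨e, he⟩, p) :: w, q', by simp [hw1], ⟨rfl, ?_, hw2⟩, ?_⟩
      · have : τ = fun _ => (p, some e) := by
          funext i
          have : i = (0 : Fin 1) := Subsingleton.elim (α := Fin 1) _ _
          rw [this, hτ]
        rw [this] at h1
        exact h1
      · rw [wt_cons, ← add_assoc]
        exact hw3

theorem runs_bin_of {t₁ t₂ : Tr} {q q₁ q₂ : A.Q} {e₁ e₂ : Inc A} {s : Fin m → ℕ}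
    (h : TB q q₁ e₁ q₂ e₂) (h1 : A.Runs t₁ q₁ (s + e₁.1)) (h2 : A.Runs t₂ q₂ (s + e₂.1)) :
    A.Runs (bin t₁ t₂) q s := by
  obtain ⟨τ, h3, h4, h5⟩ := h
  rw [bin, PTAR.Runs]
  refine ⟨τ, h3, fun h => absurd h (by simp [Sym.rk]), ?_⟩
  intro i
  have hi : ∀ i : Fin 2, A.Runs (if i = 0 then t₁ else t₂) (τ i).1 (match (τ i).2 with
      | none => 0
      | some e => s + e) := by
    intro i
    match i with
    | 0 => rw [h4]; exact h1
    | 1 => rw [h5]; exact h2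
  exact hi i

theorem runs_bin_to (hA : A.IsPTA) {t₁ t₂ : Tr} {q : A.Q} {s : Fin m → ℕ}
    (h : A.Runs (bin t₁ t₂) q s) : ∃ (q₁ : A.Q) (e₁ : Inc A) (q₂ : A.Q) (e₂ : Inc A),
      TB q q₁ e₁ q₂ e₂ ∧ A.Runs t₁ q₁ (s + e₁.1) ∧ A.Runs t₂ q₂ (s + e₂.1) := by
  rw [bin, PTAR.Runs] at h
  obtain ⟨τ, h1, -, h3⟩ := h
  have hn0 := hA _ h1 (0 : Fin 2)
  have hn1 := hA _ h1 (1 : Fin 2)
  have h30 := h3 (0 : Fin 2)
  have h31 := h3 (1 : Fin 2)
  obtain ⟨⟨p, o⟩, hτ⟩ : ∃ z, τ (0 : Fin 2) = z := ⟨_, rfl⟩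
  obtain ⟨⟨p', o'⟩, hτ'⟩ : ∃ z, τ (1 : Fin 2) = z := ⟨_, rfl⟩
  cases o with
  | none => exact absurd (by simp [hτ]) hn0
  | some e =>
    cases o' with
    | none => exact absurd (by simp [hτ']) hn1
    | some e' =>
      simp only [hτ] at h30
      simp only [hτ'] at h31
      have he : e ∈ inc A := Or.inr ⟨_, h1, (0 : Fin 2), by simp [hτ]⟩
      have he' : e' ∈ inc A := Or.inr ⟨_, h1, (1 : Fin 2), by simp [hτ']⟩
      exact ⟨p, ⟨e, he⟩, p', ⟨e', he'⟩, ⟨τ, h1, hτ, hτ'⟩, h30, h31⟩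

end Q229.PT
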