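import Pool.Agent.Q229.PT.Main

/-!
# The witness: a linear PTAR with two counters
-/

set_option autoImplicit false

namespace Q229.PT

/-- Transitions: on the main path (`true`) the letter `a` increments the first counter; at `c` the
left child continues in the side state (`false`) with the current counters and the right child is
reset; in the side state the letter `b` increments the second counter. -/
def witΔ : Set (Σ σ : Sym, Bool × (Fin (Sym.rk σ) → Bool × Option (Fin 2 → ℕ))) :=
  {⟨.u true, true, fun _ => (true, some ![1, 0])⟩,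
    ⟨.u false, false, fun _ => (false, some ![0, 1])⟩,
    ⟨.c, true, fun i : Fin 2 => if i = 0 then (false, some 0) else (true, none)⟩,
    ⟨.e, true, fun i => i.elim0⟩, ⟨.e, false, fun i => i.elim0⟩}

/-- the witness -/
def wit : PTAR Sym Sym.rk 2 where
  Q := Bool
  finite_Q := inferInstance
  q0 := true
  Δ := witΔ
  finite_Δ := by unfold witΔ; simp only [Set.finite_insert, Set.finite_singleton]
  C := {v | ∃ i : ℕ, v = ![i, i]}
  semilinear_C := by
    apply IsLinearSet.isSemilinearSet
    refine ⟨0, {![1, 1]}, Set.finite_singleton _, ?_⟩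
    ext v
    rw [Set.mem_vadd_set]
    constructor
    · rintro ⟨i, rfl⟩
      refine ⟨![i, i], ?_, zero_vadd _ _⟩
      rw [SetLike.mem_coe, AddSubmonoid.mem_closure_singleton]
      refine ⟨i, ?_⟩
      funext j
      fin_cases j <;> simp
    · rintro ⟨w, hw, rfl⟩
      rw [SetLike.mem_coe, AddSubmonoid.mem_closure_singleton] at hw
      obtain ⟨i, rfl⟩ := hw
      refine ⟨i, ?_⟩
      funext j
      fin_cases j <;> simp

theorem mem_wit {t : Σ σ : Sym, Bool × (Fin (Sym.rk σ) → Bool × Option (Fin 2 → ℕ))}
    (h : t ∈ wit.Δ) : t = ⟨.u true, true, fun _ => (true, some ![1, 0])⟩ ∨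
      t = ⟨.u false, false, fun _ => (false, some ![0, 1])⟩ ∨
      t = ⟨.c, true, fun i : Fin 2 => if i = 0 then (false, some 0) else (true, none)⟩ ∨
      t = ⟨.e, true, fun i => i.elim0⟩ ∨ t = ⟨.e, false, fun i => i.elim0⟩ := h

theorem wit_a {t : Tr} {q : Bool} {s : Fin 2 → ℕ} :
    wit.Runs (.node (.u true) (fun _ => t)) q s ↔ q = true ∧ wit.Runs t true (s + ![1, 0]) := by
  rw [PTAR.Runs]
  constructor
  · rintro ⟨τ, h1, -, h3⟩
    have h3' := h3 (0 : Fin 1)
    rcases mem_wit h1 with h | h | h | h | h
    all_goals cases h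
    exact ⟨rfl, h3'⟩
  · rintro ⟨rfl, h⟩
    exact ⟨fun _ => (true, some ![1, 0]), Or.inl rfl, fun h => absurd h (by simp [Sym.rk]),
      fun _ => h⟩

theorem wit_b {t : Tr} {q : Bool} {s : Fin 2 → ℕ} :
    wit.Runs (.node (.u false) (fun _ => t)) q s ↔ q = false ∧ wit.Runs t false (s + ![0, 1]) := by
  rw [PTAR.Runs]
  constructor
  · rintro ⟨τ, h1, -, h3⟩
    have h3' := h3 (0 : Fin 1)
    rcases mem_wit h1 with h | h | h | h | h
    all_goals cases h
    exact ⟨rfl, h3'⟩
  · rintro ⟨rfl, h⟩
    exact ⟨fun _ => (false, some ![0, 1]), Or.inr (Or.inl rfl),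
      fun h => absurd h (by simp [Sym.rk]), fun _ => h⟩

theorem wit_c {t₁ t₂ : Tr} {q : Bool} {s : Fin 2 → ℕ} :
    wit.Runs (bin t₁ t₂) q s ↔ q = true ∧ wit.Runs t₁ false s ∧ wit.Runs t₂ true 0 := by
  rw [bin, PTAR.Runs]
  constructor
  · rintro ⟨τ, h1, -, h3⟩
    have h30 := h3 (0 : Fin 2)
    have h31 := h3 (1 : Fin 2)
    rcases mem_wit h1 with h | h | h | h | h
    all_goals cases h
    refine ⟨rfl, ?_, h31⟩
    have : wit.Runs t₁ false (s + 0) := h30
    rwa [add_zero] at this
  · rintro ⟨rfl, h, h'⟩
    refine ⟨fun i : Fin 2 => if i = 0 then (false, some 0) else (true, none),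
      Or.inr (Or.inr (Or.inl rfl)), fun h => absurd h (by simp [Sym.rk]), ?_⟩
    have h01 : ∀ i : Fin 2, i = 0 ∨ i = 1 := by decide
    intro i
    rcases h01 i with hi | hi
    · subst hi
      have h4 : wit.Runs t₁ false (s + 0) := by rw [add_zero]; exact h
      exact h4
    · subst hi
      exact h'

theorem wit_e {q : Bool} {s : Fin 2 → ℕ} : wit.Runs leaf q s ↔ s 0 = s 1 := by
  rw [leaf, PTAR.Runs]
  have hC : s ∈ wit.C ↔ s 0 = s 1 := by
    constructor
    · rintro ⟨i, rfl⟩; rfl
    · intro h
      refine ⟨s 0, ?_⟩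
      funext j
      fin_cases j
      · rfl
      · exact h.symm
  constructor
  · rintro ⟨τ, h1, h2, h3⟩
    exact hC.1 (h2 rfl)
  · intro h
    refine ⟨fun i => i.elim0, ?_, fun _ => hC.2 h, fun i => i.elim0⟩
    cases q
    · exact Or.inr (Or.inr (Or.inr (Or.inr rfl)))
    · exact Or.inr (Or.inr (Or.inr (Or.inl rfl)))

theorem wit_chain_a {t : Tr} : ∀ (n : ℕ) (s : Fin 2 → ℕ),
    wit.Runs (chain true n t) true s ↔ wit.Runs t true (s + ![n, 0]) := by
  intro n
  induction n with
  | zero =>
    intro s
    have : s + ![0, 0] = s := by funext j; fin_cases j <;> simp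
    rw [chain]
    simp [this]
  | succ n ih =>
    intro s
    rw [chain, wit_a, ih]
    have : s + ![1, 0] + ![n, 0] = s + ![n + 1, 0] := by
      funext j
      fin_cases j
      · show s 0 + 1 + n = s 0 + (n + 1); omega
      · rfl
    rw [this]
    simp

theorem wit_chain_b {t : Tr} : ∀ (n : ℕ) (s : Fin 2 → ℕ),
    wit.Runs (chain false n t) false s ↔ wit.Runs t false (s + ![0, n]) := by
  intro n
  induction n with
  | zero =>
    intro s
    have : s + ![0, 0] = s := by funext j; fin_cases j <;> simp
    rw [chain]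
    simp [this]
  | succ n ih =>
    intro s
    rw [chain, wit_b, ih]
    have : s + ![0, 1] + ![0, n] = s + ![0, n + 1] := by
      funext j
      fin_cases j
      · rfl
      · show s 1 + 1 + n = s 1 + (n + 1); omega
    rw [this]
    simp

theorem wit_cat : ∀ l : List (ℕ × ℕ), cat l ∈ wit.lang ↔ ∀ p ∈ l, p.1 = p.2 := by
  intro l
  show wit.Runs (cat l) true 0 ↔ _
  induction l with
  | nil => rw [cat, wit_e]; simp
  | cons p l ih =>
    obtain ⟨n, k⟩ := p
    rw [cat, wit_chain_a, wit_c, wit_chain_b, wit_e, ih]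
    simp

theorem wit_linear : wit.IsLinear := by
  intro t ht
  rcases mem_wit ht with rfl | rfl | rfl | rfl | rfl
  · intro i j _ _; exact Subsingleton.elim (α := Fin 1) i j
  · intro i j _ _; exact Subsingleton.elim (α := Fin 1) i j
  · intro i j hi hj
    have h : ∀ i j : Fin 2, ((fun i : Fin 2 => if i = 0 then
        ((false, some 0) : Bool × Option (Fin 2 → ℕ)) else (true, none)) i).2 ≠ none →
        ((fun i : Fin 2 => if i = 0 then
        ((false, some 0) : Bool × Option (Fin 2 → ℕ)) else (true, none)) j).2 ≠ none → i = j := by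
      intro i j h1 h2
      have h1' : i = 0 := by
        by_contra h
        simp [h] at h1
      have h2' : j = 0 := by
        by_contra h
        simp [h] at h2
      rw [h1', h2']
    exact h i j hi hj
  · intro i; exact i.elim0
  · intro i; exact i.elim0

instance : Finite Sym := by
  have h : Function.Injective (fun s : Sym => match s with
      | .c => (0 : Fin 4)
      | .u true => 1
      | .u false => 2
      | .e => 3) := by
    intro a b h
    rcases a with _ | x | _ <;> rcases b with _ | y | _ <;> (try cases x) <;> (try cases y) <;>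
      simp_all
  exact Finite.of_injective _ h

end Q229.PT
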